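import Pool.Agent.W601.RP.Stm2

/-! Project RP: compact subsets of the dual group are finite. -/

set_option autoImplicit false
open scoped Classical
open Filter Topology

namespace Pool.Agent.W699.RP

open Pool.Agent.W601.RP

theorem toCircle_half (y : TT) (h : ‖y‖ = 1 / 2) :
    ((AddCircle.toCircle y : Circle) : ℂ) = -1 := by
  induction y using QuotientAddGroup.induction_on with
  | H r =>
    have h1 : ‖((r : ℝ) : UnitAddCircle)‖ = |r - round r| := UnitAddCircle.norm_eq
    have h2 : |r - round r| = 1 / 2 := by rw [← h1]; exact h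
    have h3 : ((AddCircle.toCircle ((r : ℝ) : UnitAddCircle) : Circle) : ℂ) =
        Complex.exp (2 * Real.pi / 1 * r * Complex.I) := by
      rw [AddCircle.toCircle_apply_mk, Circle.coe_exp]
      push_cast
      rfl
    refine h3.trans ?_
    rcases eq_or_eq_neg_of_abs_eq h2 with h4 | h4
    · have h5 : r = (round r : ℝ) + 1 / 2 := by linarith
      have h6 : (2 * Real.pi / 1 * r * Complex.I : ℂ) =
          (round r : ℤ) * (2 * Real.pi * Complex.I) + Real.pi * Complex.I := by
        have : (r : ℂ) = ((round r : ℤ) : ℂ) + 1 / 2 := by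
          have h7 := congrArg (fun x : ℝ => (x : ℂ)) h5
          push_cast at h7
          exact h7
        rw [this]; ring
      rw [h6, Complex.exp_add, Complex.exp_int_mul_two_pi_mul_I, one_mul, Complex.exp_pi_mul_I]
    · have h5 : r = (round r : ℝ) - 1 / 2 := by linarith
      have h6 : (2 * Real.pi / 1 * r * Complex.I : ℂ) =
          (round r : ℤ) * (2 * Real.pi * Complex.I) + -(Real.pi * Complex.I) := by
        have : (r : ℂ) = ((round r : ℤ) : ℂ) - 1 / 2 := by
          have h7 := congrArg (fun x : ℝ => (x : ℂ)) h5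
          push_cast at h7
          exact h7
        rw [this]; ring
      rw [h6, Complex.exp_add, Complex.exp_int_mul_two_pi_mul_I, one_mul, Complex.exp_neg,
        Complex.exp_pi_mul_I]
      norm_num

theorem pr_single (t : ℕ) (h : ℕ → TT) : pr (Finsupp.single t 1) h = h t := by
  unfold pr
  rw [Finsupp.sum_single_index (by simp), one_smul]

/-- the topology of the dual -/
theorem eval_cont {G : Type} [Monoid G] [TopologicalSpace G] (g : G) :
    Continuous (fun χ : PontryaginDual G => χ g) := by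
  have h : Continuous (fun χ : G →ₜ* Circle => χ g) := continuous_eval_const g
  exact h

theorem nbhd {G : Type} [Monoid G] [TopologicalSpace G] (K : Set G) (hK : IsCompact K) :
    {χ : PontryaginDual G | ∀ x ∈ K, 0 < ((χ x : Circle) : ℂ).re} ∈ 𝓝 (1 : PontryaginDual G) := by
  have hU : IsOpen {z : Circle | 0 < (z : ℂ).re} :=
    isOpen_lt continuous_const (Complex.continuous_re.comp continuous_subtype_val)
  have h1 : IsOpen {χ : PontryaginDual G | Set.MapsTo χ K {z : Circle | 0 < (z : ℂ).re}} :=
    isOpen_induced (ContinuousMap.isOpen_setOfPred_mapsTo hK hU)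
  exact h1.mem_nhds (fun x _ => by simp)

theorem finc : S_CH → S_KILL → S_KA → S_SEQ → S_GS → S_FINC := by
  intro hCH hKILL hKA hSEQ hGS C hC
  by_contra hinf
  have hinf' : C.Infinite := hinf
  have : Countable ↥GS := hGS.2.2.2.1
  set z := hinf'.natEmbedding with hz
  obtain ⟨a, haC, φ, hφ, hlim⟩ := hSEQ (PontryaginDual (Multiplicative ↥GS)) (↥GS → Circle)
    (fun χ g => χ (Multiplicative.ofAdd g))
    (continuous_pi fun g => eval_cont (Multiplicative.ofAdd g))
    (fun χ ψ h => PontryaginDual.ext fun x => congrFun h (Multiplicative.toAdd x)) C hC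
    (fun n => (z n : PontryaginDual (Multiplicative ↥GS))) (fun n => (z n).2)
  choose h hh using fun n => hCH.1 (z n : PontryaginDual (Multiplicative ↥GS))
  obtain ⟨h₀, hh₀⟩ := hCH.1 a
  -- the differences
  set g : ℕ → ↥H := fun n => h (φ n) - h₀ with hg
  have hginj : Function.Injective g := by
    intro n m hnm
    have h1 : h (φ n) = h (φ m) := by
      have : h (φ n) - h₀ = h (φ m) - h₀ := hnm
      exact sub_left_injective this
    have h2 : (z (φ n) : PontryaginDual (Multiplicative ↥GS)) = z (φ m) := by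
      apply PontryaginDual.ext
      intro x
      have e1 := hh (φ n) (Multiplicative.toAdd x)
      have e2 := hh (φ m) (Multiplicative.toAdd x)
      rw [h1, ← e2] at e1
      exact e1
    exact hφ.injective (z.injective (Subtype.ext h2))
  obtain ⟨n₀, hn₀⟩ : ∃ n₀ : ℕ, ∀ n, n₀ ≤ n → g n ≠ 0 := by
    by_cases hex : ∃ n, g n = 0
    · obtain ⟨n, hn⟩ := hex
      refine ⟨n + 1, fun m hm h0 => ?_⟩
      have := hginj (h0.trans hn.symm)
      omega
    · push Not at hex
      exact ⟨0, fun n _ => hex n⟩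
  obtain ⟨A, -, hAch, hA⟩ := hKILL (fun j => ((g (n₀ + j) : ↥H) : ℕ → TT))
    (fun j => (g (n₀ + j)).2)
    (fun j h0 => hn₀ (n₀ + j) (Nat.le_add_right _ _) (Subtype.ext h0))
    (fun i j hij => by
      have := hginj (Subtype.ext hij)
      omega)
  -- the compact set
  have hK := hKA A hAch
  set K : Set ↥GS := {g : ↥GS | (g : ↥H → TT) = 0 ∨
    ∃ t ∈ A, (g : ↥H → TT) = phi (Finsupp.single t 1)} with hKdef
  have hK' : IsCompact (Multiplicative.toAdd ⁻¹' K : Set (Multiplicative ↥GS)) := hK
  have h1 : Tendsto (fun n => (z (φ n) : PontryaginDual (Multiplicative ↥GS)) / a) atTop (𝓝 1) := by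
    have := hlim.div_const' a
    rwa [div_self'] at this
  obtain ⟨m, hm⟩ := eventually_atTop.1 (h1.eventually (nbhd _ hK'))
  obtain ⟨j, hj, t, ht, hnorm⟩ := hA m
  have h2 := hm (n₀ + j) (by omega)
  set y : ↥GS := ⟨phi (Finsupp.single t 1), hGS.2.1 _⟩ with hy
  have h3 := h2 (Multiplicative.ofAdd y) (show y ∈ K from Or.inr ⟨t, ht, rfl⟩)
  have h4 : ((z (φ (n₀ + j)) : PontryaginDual (Multiplicative ↥GS)) / a) (Multiplicative.ofAdd y) =
      AddCircle.toCircle (((g (n₀ + j) : ↥H) : ℕ → TT) t) := by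
    have e0 : ((z (φ (n₀ + j)) : PontryaginDual (Multiplicative ↥GS)) / a) (Multiplicative.ofAdd y) =
        (z (φ (n₀ + j)) : PontryaginDual (Multiplicative ↥GS)) (Multiplicative.ofAdd y) /
          a (Multiplicative.ofAdd y) := rfl
    rw [e0, hh, hh₀]
    have e1 : (y : ↥H → TT) (h (φ (n₀ + j))) = ((h (φ (n₀ + j)) : ↥H) : ℕ → TT) t :=
      pr_single t _
    have e2 : (y : ↥H → TT) h₀ = ((h₀ : ↥H) : ℕ → TT) t := pr_single t _
    have e3 : ((g (n₀ + j) : ↥H) : ℕ → TT) t =
        ((h (φ (n₀ + j)) : ↥H) : ℕ → TT) t - ((h₀ : ↥H) : ℕ → TT) t := rfl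
    rw [e1, e2, e3, sub_eq_add_neg, AddCircle.toCircle_add, AddCircle.toCircle_neg, div_eq_mul_inv]
  rw [h4, toCircle_half _ hnorm] at h3
  norm_num at h3

end Pool.Agent.W699.RP
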