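import Pool.Agent.W829.RP.Defs

/-!
RP-OB: enclosing balls at the boundary points of a positively curved body.
-/

set_option autoImplicit false

open MeasureTheory Set Module
open scoped ENNReal Topology

namespace Pool.Agent.W699.RP.Ob
open Pool.Agent.W829.RP

variable {V : Type} [NormedAddCommGroup V] [InnerProductSpace ℝ V] [FiniteDimensional ℝ V]

/-- second order Taylor -/
theorem taylor {f : V → ℝ} (hf : Differentiable ℝ f) (hf2 : Differentiable ℝ (fderiv ℝ f)) (x : V)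
    {ε : ℝ} (hε : 0 < ε) : ∃ δ : ℝ, 0 < δ ∧ ∀ v : V, ‖v‖ ≤ δ →
      |f (x + v) - f x - fderiv ℝ f x v - 1 / 2 * fderiv ℝ (fderiv ℝ f) x v v| ≤ ε * ‖v‖ ^ 2 := by
  have h1 := (hf2 x).hasFDerivAt
  rw [hasFDerivAt_iff_isLittleO_nhds_zero] at h1
  have h2 := h1.def hε
  rw [Metric.eventually_nhds_iff] at h2
  obtain ⟨δ, hδ, h2⟩ := h2
  refine ⟨δ / 2, by positivity, fun v hv => ?_⟩
  set L := fderiv ℝ f x with hL
  set B := fderiv ℝ (fderiv ℝ f) x with hB
  let φ : ℝ → ℝ := fun t => f (x + t • v) - t * L v - t ^ 2 / 2 * B v v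
  let φ' : ℝ → ℝ := fun t => (fderiv ℝ f (x + t • v) - L - B (t • v)) v
  have hd : ∀ t : ℝ, HasDerivAt φ (φ' t) t := by
    intro t
    have ha : HasDerivAt (fun t : ℝ => x + t • v) v t := by
      simpa using ((hasDerivAt_id t).smul_const v).const_add x
    have hb : HasDerivAt (fun t : ℝ => f (x + t • v)) (fderiv ℝ f (x + t • v) v) t :=
      (hf (x + t • v)).hasFDerivAt.comp_hasDerivAt t ha
    have hc : HasDerivAt (fun t : ℝ => t * L v) (1 * L v) t := (hasDerivAt_id t).mul_const _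
    have hd : HasDerivAt (fun t : ℝ => t ^ 2 / 2 * B v v) (t * B v v) t := by
      have := (((hasDerivAt_pow 2 t).div_const 2).mul_const (B v v))
      refine this.congr_deriv ?_
      push_cast
      ring
    have := (hb.sub hc).sub hd
    refine this.congr_deriv ?_
    show _ = (fderiv ℝ f (x + t • v) - L - B (t • v)) v
    rw [sub_apply, sub_apply, map_smul, smul_apply, smul_eq_mul]
    ring
  have hb : ∀ t ∈ Set.Icc (0 : ℝ) 1, ‖φ' t‖ ≤ ε * ‖v‖ ^ 2 := by
    intro t ht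
    have hn : ‖t • v‖ ≤ ‖v‖ := by
      rw [norm_smul, Real.norm_of_nonneg ht.1]
      exact mul_le_of_le_one_left (norm_nonneg _) ht.2
    have h3 := h2 (y := t • v) (by rw [dist_zero_right]; linarith)
    calc ‖φ' t‖ ≤ ‖fderiv ℝ f (x + t • v) - L - B (t • v)‖ * ‖v‖ :=
          ContinuousLinearMap.le_opNorm _ _
      _ ≤ (ε * ‖t • v‖) * ‖v‖ := by gcongr
      _ ≤ (ε * ‖v‖) * ‖v‖ := by gcongr
      _ = _ := by ring
  have h3 := (convex_Icc (0 : ℝ) 1).norm_image_sub_le_of_norm_hasDerivWithin_le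
    (fun t ht => (hd t).hasDerivWithinAt) hb (left_mem_Icc.2 zero_le_one)
    (right_mem_Icc.2 zero_le_one)
  have h4 : φ 1 - φ 0 = f (x + v) - f x - L v - 1 / 2 * B v v := by
    simp only [φ]
    simp
    ring
  rw [h4] at h3
  simpa using h3

/-- positivity modulo the square of a functional -/
theorem posdef {L : V →L[ℝ] ℝ} {B : V →L[ℝ] V →L[ℝ] ℝ}
    (hB : ∀ v : V, L v = 0 → v ≠ 0 → 0 < B v v) (hne : ∃ u : V, ‖u‖ = 1) :
    ∃ c M : ℝ, 0 < c ∧ 0 ≤ M ∧ ∀ v : V, c * ‖v‖ ^ 2 ≤ B v v + M * (L v) ^ 2 := by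
  have hcB : Continuous (fun v : V => B v v) := B.continuous.clm_apply continuous_id
  have hcov : Metric.sphere (0 : V) 1 ⊆ ⋃ n : ℕ, {v : V | 0 < B v v + n * (L v) ^ 2} := by
    intro v hv
    rw [mem_sphere_zero_iff_norm] at hv
    have hv0 : v ≠ 0 := by
      rintro rfl
      simp at hv
    rw [mem_iUnion]
    by_cases h : L v = 0
    · exact ⟨0, by simpa using hB v h hv0⟩
    · obtain ⟨n, hn⟩ := exists_nat_gt (-(B v v) / (L v) ^ 2)
      refine ⟨n, ?_⟩
      have hp : 0 < (L v) ^ 2 := by positivity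
      rw [div_lt_iff₀ hp] at hn
      show 0 < B v v + n * (L v) ^ 2
      linarith
  obtain ⟨n, hn⟩ := (isCompact_sphere (0 : V) 1).elim_directed_cover
    (fun n : ℕ => {v : V | 0 < B v v + n * (L v) ^ 2})
    (fun n => isOpen_lt continuous_const (hcB.add (continuous_const.mul (L.continuous.pow 2))))
    hcov (by
      apply directed_of_isDirected_le
      intro a b hab v hv
      have hv' : 0 < B v v + a * (L v) ^ 2 := hv
      show 0 < B v v + b * (L v) ^ 2
      have : (a : ℝ) * (L v) ^ 2 ≤ b * (L v) ^ 2 := by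
        have : (a : ℝ) ≤ b := by exact_mod_cast hab
        gcongr
      linarith)
  obtain ⟨u, hu⟩ := hne
  obtain ⟨w, hw, hmin⟩ := (isCompact_sphere (0 : V) 1).exists_isMinOn ⟨u, by simpa using hu⟩
    (hcB.add (continuous_const.mul (L.continuous.pow 2)) :
      Continuous (fun v : V => B v v + n * (L v) ^ 2)).continuousOn
  refine ⟨B w w + n * (L w) ^ 2, n, hn hw, by positivity, fun v => ?_⟩
  by_cases hv : v = 0
  · subst hv; simp
  have hvn : 0 < ‖v‖ := norm_pos_iff.2 hv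
  have h1 : B w w + n * (L w) ^ 2 ≤ B (‖v‖⁻¹ • v) (‖v‖⁻¹ • v) + n * (L (‖v‖⁻¹ • v)) ^ 2 :=
    hmin (a := ‖v‖⁻¹ • v) (by rw [mem_sphere_zero_iff_norm, norm_smul, norm_inv, norm_norm,
      inv_mul_cancel₀ hvn.ne'])
  have h2 : B (‖v‖⁻¹ • v) (‖v‖⁻¹ • v) + n * (L (‖v‖⁻¹ • v)) ^ 2 =
      (B v v + n * (L v) ^ 2) / ‖v‖ ^ 2 := by
    simp only [map_smul, smul_apply, smul_eq_mul]
    field_simp
  rw [h2, le_div_iff₀ (by positivity)] at h1
  exact h1

theorem ob : S_OB := by
  intro k K hK hk x hx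
  obtain ⟨⟨hconv, hcomp, hint⟩, f, hf, hf2, hKf, hcurv⟩ := hK
  have hfx : f x = 0 := by
    rw [hKf] at hx
    exact frontier_le_subset_eq hf.continuous continuous_const hx
  obtain ⟨hL0, hB⟩ := hcurv x hfx
  set L := fderiv ℝ f x with hL
  set B := fderiv ℝ (fderiv ℝ f) x with hBdef
  -- the normal
  set n : E k := (InnerProductSpace.toDual ℝ (E k)).symm L with hn
  have hLn : ∀ v, L v = inner ℝ n v := fun v => by
    rw [hn, InnerProductSpace.toDual_symm_apply]
  have hn0 : n ≠ 0 := by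
    intro h
    apply hL0
    ext v
    rw [hLn, h, inner_zero_left]
    simp
  have hnn : 0 < ‖n‖ := norm_pos_iff.2 hn0
  have hu : ‖‖n‖⁻¹ • n‖ = 1 := by
    rw [norm_smul, norm_inv, norm_norm, inv_mul_cancel₀ hnn.ne']
  have hxK : x ∈ K := by rw [hKf]; exact hfx.le
  -- (1)
  have h1 : ∀ y ∈ K, L (y - x) ≤ 0 := by
    intro y hy
    have hmax : IsLocalMaxOn f K x := by
      apply IsMaxOn.localize
      intro z hz
      rw [hKf] at hz
      show f z ≤ f x
      rw [hfx]; exact hz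
    exact hmax.hasFDerivWithinAt_nonpos (hf x).hasFDerivAt.hasFDerivWithinAt
      (sub_mem_posTangentConeAt_of_segment_subset (hconv.segment_subset hxK hy))
  obtain ⟨c, M, hc, hM, hpd⟩ := posdef hB ⟨_, hu⟩
  obtain ⟨δ, hδ, htay⟩ := taylor hf hf2 x (ε := c / 4) (by positivity)
  -- local claim
  set C1 : ℝ := 2 / c * (2 + M * (‖L‖ * δ)) with hC1
  have hC1p : 0 < C1 := by positivity
  have hloc : ∀ v : E k, ‖v‖ ≤ δ → x + v ∈ K → ‖v‖ ^ 2 ≤ C1 * (-(L v)) := by
    intro v hv hvK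
    have hfv : f (x + v) ≤ 0 := by rw [hKf] at hvK; exact hvK
    have hLv : L v ≤ 0 := by
      have := h1 _ hvK
      rwa [add_sub_cancel_left] at this
    have h2 := (abs_le.1 (htay v hv)).1
    rw [hfx, ← hL, ← hBdef] at h2
    have h3 := hpd v
    have h4 : (L v) ^ 2 ≤ (‖L‖ * δ) * (-(L v)) := by
      have h5 : -(L v) ≤ ‖L‖ * δ := by
        have := L.le_opNorm v
        rw [Real.norm_eq_abs] at this
        have h6 := neg_abs_le (L v)
        have h7 : ‖L‖ * ‖v‖ ≤ ‖L‖ * δ := by gcongr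
        linarith
      nlinarith
    have h5 : c * ‖v‖ ^ 2 ≤ 2 * (-(L v)) + c / 2 * ‖v‖ ^ 2 + M * ((‖L‖ * δ) * (-(L v))) := by
      have : M * (L v) ^ 2 ≤ M * ((‖L‖ * δ) * (-(L v))) := by gcongr
      linarith
    have h6 : c / 2 * ‖v‖ ^ 2 ≤ (2 + M * (‖L‖ * δ)) * (-(L v)) := by linarith
    have h7 : ‖v‖ ^ 2 = 2 / c * (c / 2 * ‖v‖ ^ 2) := by field_simp
    rw [h7, hC1, mul_assoc]
    gcongr
  -- global claim
  obtain ⟨D, hD⟩ := hcomp.isBounded.subset_closedBall x
  have hD0 : 0 ≤ D := by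
    have := hD hxK
    simpa using this
  set C2 : ℝ := C1 * (1 + D / δ) with hC2
  have hC2p : 0 < C2 := by positivity
  have hglob : ∀ y ∈ K, ‖y - x‖ ^ 2 ≤ C2 * (-(L (y - x))) := by
    intro y hy
    have hLy := h1 y hy
    by_cases hyδ : ‖y - x‖ ≤ δ
    · have h2 := hloc (y - x) hyδ (by simpa using hy)
      refine h2.trans ?_
      have : C1 ≤ C2 := by
        rw [hC2]
        have : 0 ≤ D / δ := by positivity
        nlinarith
      nlinarith
    · push Not at hyδ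
      have hyn : 0 < ‖y - x‖ := hδ.trans hyδ
      have hyD : ‖y - x‖ ≤ D := by
        have := hD hy
        rwa [Metric.mem_closedBall, dist_eq_norm] at this
      set t : ℝ := δ / ‖y - x‖ with ht
      have ht0 : 0 < t := by positivity
      have ht1 : t ≤ 1 := (div_le_one hyn).2 hyδ.le
      have hmem : x + t • (y - x) ∈ K := by
        have := hconv.add_smul_sub_mem hxK hy ⟨ht0.le, ht1⟩
        exact this
      have hnv : ‖t • (y - x)‖ = δ := by
        rw [norm_smul, Real.norm_of_nonneg ht0.le, ht]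
        field_simp
      have h2 := hloc _ hnv.le hmem
      rw [hnv, map_smul, smul_eq_mul] at h2
      -- δ² ≤ C1 * (-(t * L (y-x)))
      have h3 : δ * ‖y - x‖ ≤ C1 * (-(L (y - x))) := by
        have h4 : δ ^ 2 * (‖y - x‖ / δ) ≤ C1 * (-(t * L (y - x))) * (‖y - x‖ / δ) := by gcongr
        have h5 : C1 * (-(t * L (y - x))) * (‖y - x‖ / δ) = C1 * (-(L (y - x))) := by
          rw [ht]; field_simp
        have h6 : δ ^ 2 * (‖y - x‖ / δ) = δ * ‖y - x‖ := by field_simp
        linarith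
      have h4 : ‖y - x‖ ^ 2 ≤ (D / δ) * (C1 * (-(L (y - x)))) := by
        calc ‖y - x‖ ^ 2 = ‖y - x‖ / δ * (δ * ‖y - x‖) := by field_simp
          _ ≤ D / δ * (C1 * (-(L (y - x)))) := by gcongr
      refine h4.trans ?_
      have h5 : 0 ≤ C1 * (-(L (y - x))) := by
        have : 0 ≤ -(L (y - x)) := by linarith
        positivity
      rw [hC2]
      nlinarith
  refine ⟨C2 * ‖n‖ / 2, ‖n‖⁻¹ • n, by positivity, hu, ?_⟩
  intro y hy
  have h2 := hglob y hy
  rw [hLn] at h2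
  rw [Metric.mem_closedBall, dist_eq_norm]
  set R : ℝ := C2 * ‖n‖ / 2 with hR
  have hRp : 0 < R := by positivity
  have h3 : y - (x - R • (‖n‖⁻¹ • n)) = (y - x) + (C2 / 2) • n := by
    rw [hR, smul_smul]
    have : C2 * ‖n‖ / 2 * ‖n‖⁻¹ = C2 / 2 := by field_simp
    rw [this]
    abel
  rw [h3]
  apply le_of_sq_le_sq _ hRp.le
  rw [norm_add_sq_real, norm_smul, inner_smul_right, real_inner_comm, Real.norm_of_nonneg (by positivity)]
  rw [hR]
  nlinarith

theorem ball : S_BALL := by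
  intro k hk
  have hfd : ∀ x : E k, HasFDerivAt (fun x : E k => ‖x‖ ^ 2 - 1) (2 • (innerSL ℝ x)) x := fun x =>
    ((hasStrictFDerivAt_norm_sq x).hasFDerivAt).sub_const 1
  have hfd' : fderiv ℝ (fun x : E k => ‖x‖ ^ 2 - 1) = fun x => 2 • (innerSL ℝ x) :=
    funext fun x => (hfd x).fderiv
  let Λ : E k →L[ℝ] (E k →L[ℝ] ℝ) := LinearMap.toContinuousLinearMap
    { toFun := fun x => 2 • (innerSL ℝ x)
      map_add' := by intro x y; simp
      map_smul' := by intro c x; ext v; simp [mul_left_comm] }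
  have hΛ : fderiv ℝ (fun x : E k => ‖x‖ ^ 2 - 1) = fun x => Λ x := hfd'
  refine ⟨⟨convex_closedBall _ _, isCompact_closedBall _ _, ?_⟩, fun x => ‖x‖ ^ 2 - 1,
    fun x => (hfd x).differentiableAt, ?_, ?_, ?_⟩
  · rw [interior_closedBall _ one_ne_zero]
    exact ⟨0, by simp⟩
  · rw [hΛ]
    exact Λ.differentiable
  · ext x
    simp only [Metric.mem_closedBall, dist_zero_right, Set.mem_ofPred_eq, sub_nonpos]
    rw [sq_le_one_iff₀ (norm_nonneg _)]
  · intro x hx
    refine ⟨?_, ?_⟩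
    · intro h
      rw [hfd'] at h
      have := congrArg (fun l : E k →L[ℝ] ℝ => l x) h
      simp at this
      subst this
      simp at hx
    · intro v _ hv
      have h1 : fderiv ℝ (fderiv ℝ (fun x : E k => ‖x‖ ^ 2 - 1)) x = Λ := by
        rw [hΛ]
        exact Λ.fderiv
      rw [h1]
      show 0 < (2 • (innerSL ℝ v)) v
      have : 0 < ‖v‖ := norm_pos_iff.2 hv
      simp
      positivity

end Pool.Agent.W699.RP.Ob
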