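import Pool.Agent.W829.RP.Defs

/-!
RP-POL: volume of the polar body.
-/

set_option autoImplicit false

open MeasureTheory Set Module
open scoped ENNReal

namespace Pool.Agent.W699.RP.Pol
open Pool.Agent.W829.RP

/-- the box -/
def Bx (k : ℕ) (r : ℝ) : Set (E k) := {x | ∀ i, |x i| ≤ r}

theorem vol_Bx (k : ℕ) (r : ℝ) (hr : 0 ≤ r) : volume (Bx k r) = ENNReal.ofReal ((2 * r) ^ k) := by
  have h := (PiLp.volume_preserving_ofLp (Fin k)).measure_preimage
    (s := Set.Icc (fun _ : Fin k => -r) (fun _ => r)) measurableSet_Icc.nullMeasurableSet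
  have h2 : (@WithLp.ofLp 2 (Fin k → ℝ)) ⁻¹' (Set.Icc (fun _ : Fin k => -r) (fun _ => r)) = Bx k r := by
    ext x
    simp only [Bx, mem_preimage, Set.mem_ofPred_eq, Set.mem_Icc, abs_le, Pi.le_def, forall_and]
  rw [h2] at h
  rw [h, Real.volume_Icc_pi]
  simp only [Finset.prod_const, Finset.card_univ, Fintype.card_fin, sub_neg_eq_add]
  rw [← ENNReal.ofReal_pow (by linarith), ← two_mul]

variable {k : ℕ}

/-- the matrix with the rows `e i` -/
def mx (e : Fin k → E k) : Matrix (Fin k) (Fin k) ℝ := Matrix.of fun i j => e i j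

noncomputable def bb (k : ℕ) : Basis (Fin k) ℝ (E k) := (EuclideanSpace.basisFun (Fin k) ℝ).toBasis

/-- `x ↦ ∑ x i • e i` -/
noncomputable def TT (e : Fin k → E k) : E k →ₗ[ℝ] E k := Matrix.toLin (bb k) (bb k) (mx e).transpose

/-- `g ↦ (⟪e i, g⟫)_i` -/
noncomputable def SS (e : Fin k → E k) : E k →ₗ[ℝ] E k := Matrix.toLin (bb k) (bb k) (mx e)

theorem det_TT (e : Fin k → E k) : LinearMap.det (TT e) = (mx e).det := by
  rw [TT, LinearMap.det_toLin, Matrix.det_transpose]

theorem det_SS (e : Fin k → E k) : LinearMap.det (SS e) = (mx e).det := by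
  rw [SS, LinearMap.det_toLin]

theorem TT_apply (e : Fin k → E k) (x : E k) : TT e x = ∑ i, x i • e i := by
  rw [TT, Matrix.toLin_apply]
  ext j
  simp only [bb, OrthonormalBasis.coe_toBasis, EuclideanSpace.basisFun_apply, mx]
  simp [Matrix.mulVec, dotProduct, mul_comm, Pi.single_apply]

theorem SS_apply (e : Fin k → E k) (g : E k) (i : Fin k) : SS e g i = inner ℝ g (e i) := by
  rw [SS, Matrix.toLin_apply]
  simp only [bb, OrthonormalBasis.coe_toBasis, EuclideanSpace.basisFun_apply, mx]
  simp [Matrix.mulVec, dotProduct, PiLp.inner_apply, Pi.single_apply]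


theorem zero_mem_interior {M : Set (E k)} (hM : Convex ℝ M) (hne : (interior M).Nonempty)
    (hs : ∀ x ∈ M, -x ∈ M) : (0 : E k) ∈ interior M := by
  obtain ⟨x, hx⟩ := hne
  have hneg : -x ∈ interior M := by
    rw [mem_interior] at hx ⊢
    obtain ⟨U, hUM, hU, hxU⟩ := hx
    refine ⟨-U, ?_, hU.neg, by simpa using hxU⟩
    intro y hy
    have := hs _ (hUM (Set.mem_neg.1 hy))
    simpa using this
  have := hM.interior hx hneg (a := 1/2) (b := 1/2) (by norm_num) (by norm_num) (by norm_num)
  simpa using this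

theorem smul_mem {M : Set (E k)} (hM : Convex ℝ M) (h0 : (0 : E k) ∈ M) (hs : ∀ x ∈ M, -x ∈ M)
    {t : ℝ} (ht : |t| ≤ 1) {x : E k} (hx : x ∈ M) : t • x ∈ M := by
  rcases le_total 0 t with h | h
  · exact hM.smul_mem_of_zero_mem h0 hx ⟨h, by rwa [abs_of_nonneg h] at ht⟩
  · have : t • x = (-t) • (-x) := by simp
    rw [this]
    exact hM.smul_mem_of_zero_mem h0 (hs x hx) ⟨by linarith, by rwa [abs_of_nonpos h] at ht⟩

theorem combo_mem {M : Set (E k)} (hk : 1 ≤ k) (hM : Convex ℝ M) (h0 : (0 : E k) ∈ M)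
    (hs : ∀ x ∈ M, -x ∈ M) {e : Fin k → E k} (he : ∀ i, e i ∈ M) {x : E k}
    (hx : x ∈ Bx k (1 / k)) : ∑ i, x i • e i ∈ M := by
  have hk0 : (0 : ℝ) < k := by exact_mod_cast hk
  have h1 : ∑ i, x i • e i = ∑ i : Fin k, ((1 : ℝ) / k) • ((k * x i) • e i) := by
    refine Finset.sum_congr rfl fun i _ => ?_
    rw [smul_smul]
    congr 1
    field_simp
  rw [h1]
  refine hM.sum_mem (fun i _ => by positivity) ?_ (fun i _ => ?_)
  · simp [hk0.ne']
  · refine smul_mem hM h0 hs ?_ (he i)
    have := hx i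
    rw [abs_mul, abs_of_pos hk0]
    calc (k : ℝ) * |x i| ≤ k * (1 / k) := by gcongr
      _ = 1 := by field_simp

/-- Cramer's rule -/
theorem cramer_combo (e : Fin k → E k) (x : E k) (hd : (mx e).det ≠ 0) :
    x = ∑ i, ((mx (Function.update e i x)).det / (mx e).det) • e i := by
  have h1 := Matrix.mulVec_cramer (mx e).transpose (fun j => x j)
  have h2 : ∀ i, (mx (Function.update e i x)) = (mx e).updateRow i (fun j => x j) := by
    intro i
    ext a b
    by_cases h : a = i
    · subst h; simp [mx]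
    · simp [mx, h]
  rw [Matrix.det_transpose] at h1
  ext j
  have h3 := congrFun h1 j
  simp only [Matrix.mulVec, dotProduct, Matrix.transpose_apply, Matrix.cramer_transpose_apply,
    Pi.smul_apply, smul_eq_mul] at h3
  simp only [h2]
  simp only [WithLp.ofLp_sum, WithLp.ofLp_smul, Finset.sum_apply, Pi.smul_apply, smul_eq_mul]
  rw [eq_comm]
  have : ∀ i, ((mx e).updateRow i (fun j => x j)).det / (mx e).det * (e i) j
      = (mx e i j * ((mx e).updateRow i (fun j => x j)).det) / (mx e).det := by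
    intro i
    simp only [mx, Matrix.of_apply]
    ring
  simp only [this]
  rw [← Finset.sum_div, h3]
  field_simp

theorem pol : S_POL := by
  intro k hk
  have hk0 : (0 : ℝ) < k := by exact_mod_cast hk
  refine ⟨(2 / k) ^ k * (2 / k) ^ k, by positivity, ?_⟩
  intro M hB hs
  obtain ⟨hM, hMc, hne⟩ := hB
  have h0i := zero_mem_interior hM hne hs
  have h0 : (0 : E k) ∈ M := interior_subset h0i
  -- maximiser
  have hcomp : IsCompact (Set.pi univ (fun _ : Fin k => M)) := isCompact_univ_pi (fun _ => hMc)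
  have hcont : Continuous (fun e : Fin k → E k => |(mx e).det|) := by
    refine Continuous.abs (Continuous.matrix_det ?_)
    refine continuous_matrix fun i j => ?_
    simp only [mx, Matrix.of_apply]
    fun_prop
  obtain ⟨e, heM, hmax⟩ := hcomp.exists_isMaxOn ⟨fun _ => 0, fun _ _ => h0⟩ hcont.continuousOn
  have he : ∀ i, e i ∈ M := fun i => heM i (mem_univ i)
  have hmax' : ∀ f : Fin k → E k, (∀ i, f i ∈ M) → |(mx f).det| ≤ |(mx e).det| :=
    fun f hf => hmax (a := f) (fun i _ => hf i)
  -- positive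
  have hpos : 0 < |(mx e).det| := by
    obtain ⟨ε, hε, hball⟩ := Metric.isOpen_iff.1 isOpen_interior 0 h0i
    have h1 := hmax' (fun i => EuclideanSpace.single i (ε / 2)) (fun i => by
      apply interior_subset
      apply hball
      rw [Metric.mem_ball, dist_zero_right]
      simp [abs_of_pos hε]
      linarith)
    refine lt_of_lt_of_le ?_ h1
    have h2 : mx (fun i : Fin k => (EuclideanSpace.single i (ε / 2) : E k)) =
        Matrix.diagonal (fun _ => ε / 2) := by
      ext a b
      simp [mx, Matrix.diagonal_apply, Pi.single_apply, eq_comm]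
    rw [h2, Matrix.det_diagonal]
    rw [abs_pos]
    simp [hε.ne']
  have hd : (mx e).det ≠ 0 := abs_pos.1 hpos
  have hcoef : ∀ x ∈ M, ∀ i, |(mx (Function.update e i x)).det / (mx e).det| ≤ 1 := by
    intro x hx i
    rw [abs_div]
    apply (div_le_one hpos).2
    apply hmax'
    intro j
    by_cases h : j = i
    · subst h; simpa using hx
    · simpa [h] using he j
  -- (1)
  have hvB := vol_Bx k (1 / k) (by positivity)
  have h1 : ENNReal.ofReal |(mx e).det| * volume (Bx k (1 / k)) ≤ volume M := by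
    rw [← det_TT, ← Measure.addHaar_image_linearMap]
    apply measure_mono
    rintro _ ⟨x, hx, rfl⟩
    rw [TT_apply]
    exact combo_mem hk hM h0 hs he hx
  -- (2)
  have h2 : ENNReal.ofReal |(mx e).det⁻¹| * volume (Bx k (1 / k)) ≤
      volume {g : E k | ∀ w ∈ M, |inner ℝ g w| ≤ 1} := by
    rw [← det_SS, ← Measure.addHaar_preimage_linearMap _ (by rwa [det_SS])]
    apply measure_mono
    intro g hg w hw
    have hg' : ∀ i, |inner ℝ g (e i)| ≤ 1 / k := by
      intro i
      have := hg i
      rwa [SS_apply] at this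
    rw [cramer_combo e w hd, inner_sum]
    refine (Finset.abs_sum_le_sum_abs _ _).trans ?_
    calc ∑ i, |inner ℝ g (((mx (Function.update e i w)).det / (mx e).det) • e i)|
        ≤ ∑ i : Fin k, (1 : ℝ) / k := by
          refine Finset.sum_le_sum fun i _ => ?_
          rw [inner_smul_right, abs_mul]
          calc _ ≤ 1 * (1 / (k : ℝ)) := by
                gcongr
                · exact hcoef w hw i
                · exact hg' i
            _ = 1 / k := one_mul _
      _ = 1 := by simp [hk0.ne']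
  calc ENNReal.ofReal ((2 / k) ^ k * (2 / k) ^ k)
      = (ENNReal.ofReal |(mx e).det| * volume (Bx k (1 / k))) *
        (ENNReal.ofReal |(mx e).det⁻¹| * volume (Bx k (1 / k))) := by
        rw [hvB, ← ENNReal.ofReal_mul (abs_nonneg _), ← ENNReal.ofReal_mul (abs_nonneg _),
          ← ENNReal.ofReal_mul (by positivity)]
        congr 1
        rw [abs_inv]
        field_simp
    _ ≤ _ := mul_le_mul' h1 h2

end Pool.Agent.W699.RP.Pol
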